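import Pool.Agent.Lib.MP_f476d2_lc.Coins

namespace Pool.Agent.Results.MP_f476d2_lc.SlowChanges

open Filter Topology

/-- A machine on binary strings: computable in the sense of `Partrec`, and no string of the
domain is a proper initial segment of another. -/
def PFree (M : List Bool →. List Bool) : Prop :=
  Partrec M ∧ ∀ p q : List Bool, (M p).Dom → (M q).Dom → p <+: q → p = q

/-- `K M x` is the least length of a program for `x` (infinite if there is none). -/
noncomputable def K (M : List Bool →. List Bool) (x : List Bool) : ℕ∞ :=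
  ⨅ (p : List Bool) (_ : x ∈ M p), (p.length : ℕ∞)

def Universal (U : List Bool →. List Bool) : Prop :=
  PFree U ∧ ∀ M, PFree M → ∃ c : ℕ, ∀ x, K U x ≤ K M x + c

open Classical in
/-- The probability that `U` halts with output in `X`. -/
noncomputable def Omega (U : List Bool →. List Bool) (X : Set (List Bool)) : ℝ :=
  ∑' p : List Bool, if ∃ x ∈ X, x ∈ U p then (1 / 2 : ℝ) ^ p.length else 0

/-- Nonnegative left-c.e. reals: limits of nondecreasing computable dyadic sequences. -/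
def LeftCE (α : ℝ) : Prop :=
  ∃ a : ℕ → ℕ, Computable a ∧ Monotone (fun s => (a s : ℝ) / 2 ^ s) ∧
    Tendsto (fun s => (a s : ℝ) / 2 ^ s) atTop (𝓝 α)

def DCE (r : ℝ) : Prop := ∃ α β, LeftCE α ∧ LeftCE β ∧ r = α - β

/-- `X` has a computable approximation that starts empty and changes at most `h x` times on `x`. -/
def HCE (h : List Bool → ℕ) (X : Set (List Bool)) : Prop :=
  ∃ g : List Bool → ℕ → Bool, Computable₂ g ∧ (∀ x, g x 0 = false) ∧
    (∀ x, ∀ᶠ s in atTop, (g x s = true ↔ x ∈ X)) ∧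
    ∀ x n, ((Finset.range n).filter fun s => g x s ≠ g x (s + 1)).card ≤ h x

open Pool.Agent.Lib.MP_f476d2_lc in
theorem result (U : List Bool →. List Bool) (hU : Universal U) (h : List Bool → ℕ)
    (hc : Computable h) (hu : ∀ N, ∃ x, N ≤ h x) :
    ∃ ε : ℝ, 0 < ε ∧ ∀ r : ℝ, 0 < r → r ≤ ε → DCE r → ∃ X, HCE h X ∧ Omega U X = r := by
  classical
  obtain ⟨out, z, co, cz, sm, one, hw, hX⟩ := enum U hU.1.1 hU.1.2
  obtain ⟨y, lev, cy, cl, iy, hy⟩ := coins h hc hu
  obtain ⟨e, he⟩ := hU.2 (fun p => ((mo y p : Option Str) : Part Str))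
    ⟨Computable.ofOption (c_mo cy), mo_free y⟩
  have hq : ∀ i w, ∃ q, y (Nat.pair i (Encodable.encode (prog i w))) ∈ U q ∧
      q.length ≤ 4 * i + 1 + e := fun i w => by
    by_contra k1
    push Not at k1
    have k2 : ((4 * i + 1 + e + 1 : ℕ) : ℕ∞) ≤ K U (y (Nat.pair i (Encodable.encode (prog i w)))) :=
      le_iInf₂ fun q hq => Nat.cast_le.2 (k1 q hq)
    have k3 : K (fun p => ((mo y p : Option Str) : Part Str))
        (y (Nat.pair i (Encodable.encode (prog i w)))) ≤ ((4 * i + 1 : ℕ) : ℕ∞) := by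
      rw [← prog_len i w]
      exact iInf₂_le (prog i w) (by simp [mo_prog])
    have k4 := k2.trans ((he _).trans (add_le_add_left k3 _))
    rw [← Nat.cast_add, Nat.cast_le] at k4
    omega
  refine ⟨(1 / 2) ^ (e + 7 + e + 4), by positivity, ?_⟩
  rintro r r0 r1 ⟨α, β, ⟨a, ca, am, at'⟩, ⟨b, cb, bm, bt⟩, rfl⟩
  obtain ⟨n, n1, n2⟩ := exists_nat_pow_near_of_lt_one r0
    (r1.trans (pow_le_one₀ (by norm_num) (by norm_num))) (show (0 : ℝ) < 1 / 2 by norm_num)
    (by norm_num)
  have n3 : e + 7 + e + 4 < n + 1 :=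
    (pow_lt_pow_iff_right_of_lt_one₀ (by norm_num) (by norm_num)).1 (n1.trans_le r1)
  obtain ⟨i0, hi0⟩ : ∃ i0, n + 1 = i0 + e + 4 := ⟨n + 1 - (e + 4), by omega⟩
  let D : Dat := ⟨out, z, lev, fun x => decide (4 ^ (lev x + 1) + 1 ≤ h x), a, b, e, i0⟩
  have g : D.Gd α β := ⟨sm, one, am, at', bm, bt⟩
  have cp : D.Cp := ⟨co, cz, cl,
    cle (cadd (cpow 4 (cadd cl (Computable.const 1))) (Computable.const 1)) hc, ca, cb⟩
  have cap : D.Cap := fun i => by
    refine ⟨Finset.univ.image fun w : Fin (3 * i) → Bool =>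
      y (Nat.pair i (Encodable.encode (prog i w))), ?_, fun x hx => ?_⟩
    · rw [Finset.card_image_of_injective _ fun w w' k =>
        prog_inj i (Encodable.encode_injective (Nat.pair_eq_pair.1 (iy k)).2)]
      simp [pow_mul]
    · obtain ⟨w, _, rfl⟩ := Finset.mem_image.1 hx
      have k1 := hy (Nat.pair i (Encodable.encode (prog i w)))
      rw [Nat.unpair_pair] at k1
      refine ⟨k1.1, ?_, ?_⟩
      · change decide (4 ^ (lev _ + 1) + 1 ≤ h _) = true
        rw [k1.1]; exact decide_eq_true k1.2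
      · obtain ⟨q, k2, k3⟩ := hq i w
        obtain ⟨u, k4, k5⟩ := hw q _ k2
        have k6 := (sm_ind g {y (Nat.pair i (Encodable.encode (prog i w)))}).le_tsum u
          fun j _ => ind_nonneg D _ j
        have k7 : D.ind {y (Nat.pair i (Encodable.encode (prog i w)))} u = (1 / 2) ^ q.length :=
          (if_pos k4).trans k5
        rw [k7] at k6
        exact (pow_le_pow_of_le_one (by norm_num) (by norm_num) k3).trans k6
  obtain ⟨X, ap, x1, x2, x3, x4, x5⟩ := core D α β cp g cap (show e + 7 ≤ i0 by omega)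
    (by change (1 / 2 : ℝ) ^ (i0 + e + 4) ≤ _; rw [← hi0]; exact n1.le)
    (by change _ ≤ 2 * (1 / 2 : ℝ) ^ (i0 + e + 4); rw [← hi0, pow_succ]; linarith)
  refine ⟨X, ⟨ap, x1, x2, x3, fun x m => (x4 x m).trans ?_⟩, ?_⟩
  · split_ifs with k
    · exact of_decide_eq_true k
    · exact Nat.zero_le _
  · rw [← x5]
    exact (hX X).symm

end Pool.Agent.Results.MP_f476d2_lc.SlowChanges
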